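import Mathlib
import Pool.Agent.R176.NC.Dich
import Pool.Agent.R176.NC.Frob
import Pool.Agent.R176.NC.Word
import Pool.Agent.R176.NC.Up

/-!
# `n`-central polynomials on closed walks of length `n`

`K` is any infinite field, `n` an odd prime, and `f` an `n`-central polynomial for `M_n(K)` in any set
of variables.  By the starting result `BlockTriangular`, `f` is constant on the upper triangular
`n × n` matrices.  Here we go one step further, to the upper triangular `(n + 1) × (n + 1)` matrices
with equal first and last diagonal entries.  Such a tuple can be viewed as a tuple of upper triangular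
periodic arrays `P` (`P (a + n) (b + n) = P a b`), restricted to a window of `n + 1` consecutive places
which starts at the place `0`.

* Suppose that `n` is not the characteristic of `K`.  Either `f` vanishes on all these matrices, or
  there is a primitive `n`-th root of unity `ζ` in `K` such that, for every `P`, the corner entries of
  the values of `f` at the windows of `P` which start at the places `0, 1, 2, …` are `ψ, ζ ψ, ζ² ψ, …`.
  In the first case (in particular, if `K` has no primitive `n`-th root of unity) no word
  `y₁ x₁ ^ e₁ y₂ x₂ ^ e₂ ⋯ x_{n-1} ^ e_{n-1} y_n` occurs in `f`.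
* If `n` is the characteristic of `K` then the corner entries for the windows of `P` are all equal.

The proof: let `B` be upper triangular `n × n` matrices and `C` any matrices.  Then
`f (B + t C) = t H(t)`, and since the characteristic polynomial of `f (B + t C)` is `X ^ n - c(t)`,
the one of `H(0)` is `X ^ n - c'`.  Looking at `f` on the `2 n × 2 n` matrices with blocks
`B, C, 0, B` one sees that `H(0)` is upper triangular, and that its diagonal entries are the corner
entries mentioned above.
-/

set_option autoImplicit false

namespace Pool.Agent.Results.MP_5d2531_al.ClosedWalks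

open Matrix Pool.Agent.R176.NC
open Pool.Agent.Results.MP_5d2531_al.BlockTriangular (IsNuCentral coef Stair cf_sub)

/-- `P i`, for each variable `i`, is an upper triangular array with period `n`. -/
def Periodic {K : Type*} [Field K] {σ : Type*} (n : ℕ) (P : σ → ℕ → ℕ → K) : Prop :=
  (∀ i a b, b < a → P i a b = 0) ∧ ∀ i a b, P i (a + n) (b + n) = P i a b

/-- The corner entry (row `0`, column `n`) of the value of `f` at the tuple of the
`(n + 1) × (n + 1)` matrices with the entries `P i (a + k) (a + l)`, `0 ≤ k, l ≤ n`. -/
noncomputable def corner {K : Type*} [Field K] {σ : Type*} (n : ℕ) (f : FreeAlgebra K σ)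
    (P : σ → ℕ → ℕ → K) (a : ℕ) : K :=
  FreeAlgebra.lift K (fun i => (Matrix.of fun k l : Fin (n + 1) => P i (a + k) (a + l) :
    Matrix (Fin (n + 1)) (Fin (n + 1)) K)) f 0 (Fin.last n)

/-- Let `n` be an odd prime, `K` an infinite field and `f` an `n`-central polynomial for `M_n(K)`.

If the characteristic of `K` is not `n` then one of the following holds.
* `f` vanishes on all upper triangular `(n + 1) × (n + 1)` matrices whose first and last diagonal
  entries are equal, and no word `y l z` occurs in `f`, where `y`, `z` are letters and `l` is a word
  of the form `x₁ ^ e₁ y₂ x₂ ^ e₂ y₃ ⋯ y_{n-1} x_{n-1} ^ e_{n-1}`.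
* `K` contains a primitive `n`-th root of unity `ζ` such that for every tuple `P` of upper
  triangular arrays with period `n` and all `a`, the corner entry of the value of `f` at the window
  of `P` which starts at the place `a` is `ζ ^ a` times the one for the window which starts at `0`.

The second alternative is impossible if `K` contains no primitive `n`-th root of unity.

If the characteristic of `K` is `n` then the corner entries of the values of `f` at the windows of `P`
are all equal. -/
theorem result {K : Type*} [Field K] [Infinite K] {σ : Type*} (n : ℕ)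
    (hn : n.Prime) (hn2 : n ≠ 2) (f : FreeAlgebra K σ) (hcen : IsNuCentral n n f) :
    ((n : K) ≠ 0 →
      ((∀ A : σ → Matrix (Fin (n + 1)) (Fin (n + 1)) K, (∀ i a b, b < a → A i a b = 0) →
          (∀ i, A i 0 0 = A i (Fin.last n) (Fin.last n)) → FreeAlgebra.lift K A f = 0) ∧
        ∀ l : List σ, Stair (n - 2) l → ∀ y z : σ, coef f (y :: l ++ [z]) = 0) ∨
      ∃ ζ : K, IsPrimitiveRoot ζ n ∧ ∀ P : σ → ℕ → ℕ → K, Periodic n P → ∀ a : ℕ,
        corner n f P a = ζ ^ a * corner n f P 0) ∧
    ((n : K) = 0 → ∀ P : σ → ℕ → ℕ → K, Periodic n P → ∀ a : ℕ,
      corner n f P a = corner n f P 0) := by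
  classical
  refine ⟨fun hnK => ?_, fun hnK P hP a => ?_⟩
  · have h0 := coef_nil n hn hnK f hcen
    have hup : ∀ X : σ → Matrix (Fin n) (Fin n) K, (∀ i a b, b < a → X i a b = 0) →
        FreeAlgebra.lift K X f = 0 := by
      intro X hX
      rw [up_const n hn hn2 f hcen X hX, h0, map_zero]
    rcases dichotomy hn hn2 hnK f hup (charpoly_eq n hn hnK f hcen) with h | ⟨ζ, hζ, h⟩
    · left
      refine ⟨h, fun l hl y z => ?_⟩
      exact word_zero hn.two_le f h l hl.toNC y z
    · right
      exact ⟨ζ, hζ, fun P hP a => h P hP a⟩
  · set c := coef f [] with hc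
    set g := f - algebraMap K (FreeAlgebra K σ) c with hg
    have hup : ∀ X : σ → Matrix (Fin n) (Fin n) K, (∀ i a b, b < a → X i a b = 0) →
        FreeAlgebra.lift K X g = 0 := by
      intro X hX
      rw [hg, map_sub, AlgHom.commutes, up_const n hn hn2 f hcen X hX, ← hc, sub_self]
    have hsc : ∀ X : σ → Matrix (Fin n) (Fin n) K,
        ∃ c : K, FreeAlgebra.lift K X g ^ n = Matrix.scalar (Fin n) c := by
      intro X
      have : Fact n.Prime := ⟨hn⟩
      have : CharP K n := by
        obtain ⟨q, hq⟩ := CharP.exists K
        have h4 : q ∣ n := (CharP.cast_eq_zero_iff K q n).mp hnK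
        rcases (Nat.dvd_prime hn).mp h4 with h5 | h5
        · exfalso
          have := CharP.cast_eq_zero K q
          rw [h5] at this
          simp at this
        · rw [← h5]; exact hq
      have : CharP (FreeAlgebra K σ) n :=
        charP_of_injective_algebraMap (algebraMap K (FreeAlgebra K σ)).injective n
      have h4 : g ^ n = f ^ n - algebraMap K (FreeAlgebra K σ) (c ^ n) := by
        rw [hg, sub_pow_char_of_commute n (Algebra.commutes c f).symm, map_pow]
      obtain ⟨d, hd⟩ := hcen.2.1.1 X
      refine ⟨d - c ^ n, ?_⟩
      rw [← map_pow, h4, map_sub, hd, AlgHom.commutes, map_sub]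
      rfl
    have hcor : ∀ a, corner n f P a = psi n g P a := by
      intro a
      have hne : (0 : Fin (n + 1)) ≠ Fin.last n := by
        intro h
        have h1 := congrArg Fin.val h
        rw [Fin.val_zero, Fin.val_last] at h1
        exact hn.ne_zero h1.symm
      unfold psi
      rw [hg, map_sub, AlgHom.commutes, Matrix.sub_apply, Matrix.algebraMap_matrix_apply,
        if_neg hne, sub_zero]
      rfl
    rw [hcor, hcor]
    exact frob hn hnK g hup hsc P hP a

end Pool.Agent.Results.MP_5d2531_al.ClosedWalks
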