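import Mathlib
import Pool.Agent.R163.FT.Full

/-! Let `n ≥ 3`, let `p` be `ν`-central for `M_n(K)`, `ν > 1`, and suppose that a nonzero multiple
of `p` is, on `M_n(K)`, a combination of `1` and `N` polynomials `g_1, …, g_N` with coefficients
arbitrary polynomial functions of the entries of the matrices (central or not).  If the
commutative images of `1, g_1, …, g_N` are linearly independent, then `N ≥ n`. -/

set_option autoImplicit false

namespace Pool.Agent.Results.MP_5d2531_al.FewTerms

/-- Every value of `f` on `n × n` matrices over `K` is a scalar matrix. -/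
def ScalarValued {K : Type} [Field K] {σ : Type} (n : ℕ) (f : FreeAlgebra K σ) : Prop :=
  ∀ X : σ → Matrix (Fin n) (Fin n) K, ∃ c : K, FreeAlgebra.lift K X f = Matrix.scalar (Fin n) c

/-- `f` is central for `M_n(K)`: all values are scalar and `f` is not identically zero. -/
def IsCentral {K : Type} [Field K] {σ : Type} (n : ℕ) (f : FreeAlgebra K σ) : Prop :=
  ScalarValued n f ∧ ∃ X : σ → Matrix (Fin n) (Fin n) K, FreeAlgebra.lift K X f ≠ 0

/-- `f` is `ν`-central for `M_n(K)`: `ν` is the least positive integer with `f ^ ν` central. -/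
def IsNuCentral {K : Type} [Field K] {σ : Type} (n ν : ℕ) (f : FreeAlgebra K σ) : Prop :=
  0 < ν ∧ IsCentral n (f ^ ν) ∧ ∀ μ : ℕ, 0 < μ → IsCentral n (f ^ μ) → ν ≤ μ

/-- The value at the tuple `X` of the polynomial function `γ` of the entries of the matrices. -/
noncomputable def valueAt {K : Type} [Field K] {σ : Type} {n : ℕ}
    (γ : MvPolynomial (σ × Fin n × Fin n) K) (X : σ → Matrix (Fin n) (Fin n) K) : K :=
  MvPolynomial.eval (fun q => X q.1 q.2.1 q.2.2) γ

/-- The commutative image of an element of the free algebra. -/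
noncomputable def ab {K : Type} [Field K] {σ : Type} : FreeAlgebra K σ →ₐ[K] MvPolynomial σ K :=
  FreeAlgebra.lift K MvPolynomial.X

/-- The commutative images of `1` and of the `g j` are linearly independent over `K`. -/
def CommIndependent {K : Type} [Field K] {σ ι : Type} (g : ι → FreeAlgebra K σ) : Prop :=
  LinearIndependent K fun o : Option ι => o.elim (1 : MvPolynomial σ K) fun j => ab (g j)

theorem CommIndependent.coeff {K : Type} [Field K] {σ ι : Type} [Fintype ι]
    {g : ι → FreeAlgebra K σ} (hg : CommIndependent g) (c₀ : K) (c : ι → K)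
    (h : MvPolynomial.C c₀ + ∑ j, c j • Pool.Agent.R163.FT.ab (g j) = 0) : c = 0 := by
  have h1 := Fintype.linearIndependent_iff.1 hg (fun o => o.elim c₀ c) (by
    rw [Fintype.sum_option]
    simp only [Option.elim_none, Option.elim_some]
    rw [← MvPolynomial.C_mul', mul_one]
    exact h)
  funext j
  exact h1 (some j)

theorem eq_scalar {K : Type} [Field K] {n : ℕ} (s : K) :
    Matrix.scalar (Fin n) s = s • (1 : Matrix (Fin n) (Fin n) K) := by
  ext i j
  by_cases hij : i = j
  · subst hij; simp
  · simp [hij]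

/-- Let `n ≥ 3`, let `p` be `ν`-central for some `ν > 1` and `d p = γ₀ + ∑ γ_j g_j` on `M_n(K)`,
`d ≠ 0`, where `1` and the `g_j` have linearly independent commutative images.  Then the number of
the `g_j` is at least `n`. -/
theorem result (K : Type) [Field K] [Infinite K] (σ ι : Type) [Fintype ι] (n ν : ℕ) (hn : 3 ≤ n)
    (hν : 1 < ν) (p : FreeAlgebra K σ) (hp : IsNuCentral n ν p)
    (g : ι → FreeAlgebra K σ) (hg : CommIndependent g)
    (d γ₀ : MvPolynomial (σ × Fin n × Fin n) K) (γ : ι → MvPolynomial (σ × Fin n × Fin n) K)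
    (hd : d ≠ 0)
    (h : ∀ X : σ → Matrix (Fin n) (Fin n) K, valueAt d X • FreeAlgebra.lift K X p =
      valueAt γ₀ X • (1 : Matrix (Fin n) (Fin n) K) +
        ∑ j, valueAt (γ j) X • FreeAlgebra.lift K X (g j)) :
    n ≤ Fintype.card ι := by
  by_contra hlt
  have hcard : Fintype.card ι + 1 ≤ n := by omega
  have hpow : ∀ P : σ × Fin n × Fin n → K, Pool.Agent.R163.FT.IsSc
      ((FreeAlgebra.lift K (Pool.Agent.R163.FT.mat P) p) ^ ν) := by
    intro P
    obtain ⟨s, hs⟩ := hp.2.1.1 (Pool.Agent.R163.FT.mat P)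
    rw [eq_scalar, map_pow] at hs
    exact ⟨s, hs⟩
  have hγ : ∀ j, γ j = 0 := by
    refine Pool.Agent.R163.FT.Conj.coeff_zero_full hcard hn g hg.coeff ν (by omega) γ₀ γ
      fun P => ?_
    have h1 := h (Pool.Agent.R163.FT.mat P)
    obtain ⟨s, hs⟩ := hpow P
    refine ⟨MvPolynomial.eval P d ^ ν * s, ?_⟩
    have h2 : MvPolynomial.eval P d • FreeAlgebra.lift K (Pool.Agent.R163.FT.mat P) p =
        MvPolynomial.eval P γ₀ • (1 : Matrix (Fin n) (Fin n) K) +
          ∑ j, MvPolynomial.eval P (γ j) •
            FreeAlgebra.lift K (Pool.Agent.R163.FT.mat P) (g j) := h1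
    rw [← h2, smul_pow, hs, smul_smul]
  have h1 := Pool.Agent.R163.FT.scalar_of_few (ι := Fin 0) (by simp; omega)
    (fun j => j.elim0) (fun _ _ _ => funext fun j => j.elim0) ν (by omega) p d γ₀ hd
    (fun j => j.elim0)
    (fun P => by
      have h1 := h (Pool.Agent.R163.FT.mat P)
      simp only [hγ] at h1
      simpa [valueAt, Pool.Agent.R163.FT.mat] using h1) hpow
  have h2 : IsCentral n (p ^ 1) := by
    rw [pow_one]
    refine ⟨fun X => ?_, ?_⟩
    · obtain ⟨s, hs⟩ := h1.2 fun q => X q.1 q.2.1 q.2.2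
      refine ⟨s, ?_⟩
      rw [eq_scalar]
      exact hs
    · obtain ⟨X, hX⟩ := hp.2.1.2
      refine ⟨X, fun h0 => hX ?_⟩
      rw [map_pow, h0, zero_pow (by omega)]
  have := hp.2.2 1 one_pos h2
  omega

end Pool.Agent.Results.MP_5d2531_al.FewTerms
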