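import Pool.Agent.R676.NC.Comp

/-!
# `n`-central polynomials have at least `2 ^ n` words in every multidegree

`K` is any infinite field and `n` any odd prime.  If a nonempty word `w` occurs in an `n`-central
polynomial `f` for `M_n(K)` then at least `2 ^ n` rearrangements of `w` occur in `f`; moreover there are
at least `n` places of `w` at which the tree of the occurring rearrangements branches off `w`.

The proof: `f` is constant on the upper triangular matrices (starting result `BlockTriangular`), and so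
the multihomogeneous components of positive degree vanish there.  If `g ≠ 0` is homogeneous and vanishes
on the upper triangular matrices of size `n + 1`, `p` is the longest common beginning of the words of
`g` and `y` is one of the letters which follow `p` in words of `g`, then the polynomial `g'` for which
`p y g'` is the part of `g` formed by the words beginning with `p y` vanishes on the upper triangular
matrices of size `n`; and there are at least two such letters.  The bound `2 ^ n` is sharp for the
identities of upper triangular matrices: `[x₁, y₁] ⋯ [x_n, y_n]`.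
-/

set_option autoImplicit false

namespace Pool.Agent.Results.MP_5d2531_al.ManyWords

open Matrix Pool.Agent.R676.NC
open Pool.Agent.Results.MP_5d2531_al.BlockTriangular (IsNuCentral coef)

variable {K : Type*} [Field K] {σ : Type*}

lemma lift_reindex {ι κ : Type*} [Fintype ι] [Fintype κ] [DecidableEq ι] [DecidableEq κ]
    (e : ι ≃ κ) (Y : σ → Matrix ι ι K) (f : FreeAlgebra K σ) :
    FreeAlgebra.lift K (fun i => Matrix.reindexAlgEquiv K K e (Y i)) f =
      Matrix.reindexAlgEquiv K K e (FreeAlgebra.lift K Y f) := by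
  have h : FreeAlgebra.lift K (fun i => Matrix.reindexAlgEquiv K K e (Y i)) =
      ((Matrix.reindexAlgEquiv K K e : Matrix ι ι K ≃ₐ[K] Matrix κ κ K) :
        Matrix ι ι K →ₐ[K] Matrix κ κ K).comp (FreeAlgebra.lift K Y) := by
    apply FreeAlgebra.hom_ext
    funext i
    simp
  rw [h]
  rfl

lemma const_up {m : ℕ} (e : Fin 1 ⊕ Fin m ≃ Fin (m + 1)) (f : FreeAlgebra K σ) (c : K)
    (h : ∀ (A : σ → Matrix (Fin 1) (Fin 1) K) (A' : σ → Matrix (Fin m) (Fin m) K)
      (B : σ → Matrix (Fin 1) (Fin m) K),
      FreeAlgebra.lift K (fun i => Matrix.fromBlocks (A i) (B i) 0 (A' i)) f =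
        Matrix.scalar (Fin 1 ⊕ Fin m) c)
    (X : σ → Matrix (Fin (m + 1)) (Fin (m + 1)) K)
    (hX : ∀ i (k : Fin m) (u : Fin 1), X i (e (Sum.inr k)) (e (Sum.inl u)) = 0) :
    FreeAlgebra.lift K X f = algebraMap K _ c := by
  set Y : σ → Matrix (Fin 1 ⊕ Fin m) (Fin 1 ⊕ Fin m) K := fun i =>
    Matrix.reindexAlgEquiv K K e.symm (X i) with hY
  have h1 : ∀ i, Y i = Matrix.fromBlocks (Y i).toBlocks₁₁ (Y i).toBlocks₁₂ 0 (Y i).toBlocks₂₂ := by
    intro i
    conv_lhs => rw [← Matrix.fromBlocks_toBlocks (Y i)]
    congr 1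
    ext k u
    exact hX i k u
  have h2 : X = fun i => Matrix.reindexAlgEquiv K K e (Y i) := by
    funext i
    ext a b
    simp [hY]
  rw [h2, lift_reindex, show Y = fun i => Matrix.fromBlocks (Y i).toBlocks₁₁ (Y i).toBlocks₁₂ 0
    (Y i).toBlocks₂₂ from funext h1, h]
  exact AlgEquiv.commutes (Matrix.reindexAlgEquiv K K e) c

lemma const_lo {m : ℕ} (e : Fin 1 ⊕ Fin m ≃ Fin (m + 1)) (f : FreeAlgebra K σ) (c : K)
    (h : ∀ (A : σ → Matrix (Fin 1) (Fin 1) K) (A' : σ → Matrix (Fin m) (Fin m) K)
      (C : σ → Matrix (Fin m) (Fin 1) K),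
      FreeAlgebra.lift K (fun i => Matrix.fromBlocks (A i) 0 (C i) (A' i)) f =
        Matrix.scalar (Fin 1 ⊕ Fin m) c)
    (X : σ → Matrix (Fin (m + 1)) (Fin (m + 1)) K)
    (hX : ∀ i (k : Fin m) (u : Fin 1), X i (e (Sum.inl u)) (e (Sum.inr k)) = 0) :
    FreeAlgebra.lift K X f = algebraMap K _ c := by
  set Y : σ → Matrix (Fin 1 ⊕ Fin m) (Fin 1 ⊕ Fin m) K := fun i =>
    Matrix.reindexAlgEquiv K K e.symm (X i) with hY
  have h1 : ∀ i, Y i = Matrix.fromBlocks (Y i).toBlocks₁₁ 0 (Y i).toBlocks₂₁ (Y i).toBlocks₂₂ := by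
    intro i
    conv_lhs => rw [← Matrix.fromBlocks_toBlocks (Y i)]
    congr 1
    ext u k
    exact hX i k u
  have h2 : X = fun i => Matrix.reindexAlgEquiv K K e (Y i) := by
    funext i
    ext a b
    simp [hY]
  rw [h2, lift_reindex, show Y = fun i => Matrix.fromBlocks (Y i).toBlocks₁₁ 0 (Y i).toBlocks₂₁
    (Y i).toBlocks₂₂ from funext h1, h]
  exact AlgEquiv.commutes (Matrix.reindexAlgEquiv K K e) c

/-- Let `n` be an odd prime, `K` an infinite field (of any characteristic) and `f` an `n`-central
polynomial for `M_n(K)` (`f ^ n` takes only scalar values and is not identically zero on `M_n(K)`,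
and `n` is the least positive exponent with this property).  Let `w` be a nonempty word which occurs
in `f`.  Then at least `2 ^ n` rearrangements `l` of `w` (`w` included) occur in `f`, and there are at
least `n` places `s` of `w` such that some rearrangement `l` of `w` which occurs in `f` agrees with
`w` before the place `s` but not at the place `s`. -/
theorem result [Infinite K] (n : ℕ) (hn : n.Prime) (hn2 : n ≠ 2) (f : FreeAlgebra K σ)
    (hcen : IsNuCentral n n f) (w : List σ) (hw : w ≠ []) (hc : coef f w ≠ 0) :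
    {l : List σ | l.Perm w ∧ coef f l ≠ 0}.Finite ∧
    2 ^ n ≤ {l : List σ | l.Perm w ∧ coef f l ≠ 0}.ncard ∧
    n ≤ {s : ℕ | s < w.length ∧ ∃ l : List σ, l.Perm w ∧ coef f l ≠ 0 ∧
      l.take s = w.take s ∧ l[s]? ≠ w[s]?}.ncard := by
  classical
  have h1 := (Pool.Agent.Results.MP_5d2531_al.BlockTriangular.result n hn hn2 f hcen).1
  have hn3 : 3 ≤ n := by have := hn.two_le; omega
  obtain ⟨m, rfl⟩ : ∃ m, n = m + 1 := ⟨n - 1, by omega⟩
  refine count_free f (coef f []) (fun X hX => ?_) w hw hc
  rcases h1 1 m one_pos (by omega) (by omega) with h2 | h2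
  · let e : Fin 1 ⊕ Fin m ≃ Fin (m + 1) := finSumFinEquiv.trans (finCongr (Nat.add_comm 1 m))
    refine const_up e f _ h2 X fun i k u => hX i _ _ ?_
    rw [Fin.lt_def]
    simp [e]
  · let e : Fin 1 ⊕ Fin m ≃ Fin (m + 1) := (Equiv.sumComm _ _).trans finSumFinEquiv
    refine const_lo e f _ h2 X fun i k u => hX i _ _ ?_
    rw [Fin.lt_def]
    simp [e]

end Pool.Agent.Results.MP_5d2531_al.ManyWords
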