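import Pool.Agent.R844.NC.Main

/-!
# Short words in `n`-central polynomials

`K` is any infinite field, `n` any odd prime and `f` any `n`-central polynomial for `M_n(K)`, in any
set of variables.

* If a nonempty word with less than `2 k` distinct letters (`1 ≤ k < n`) occurs in `f` then its
  length is at least `2 n + ⌊n / k⌋`.  For example, the nonconstant words of an `n`-central polynomial
  in at most three variables have length at least `(5 n - 1) / 2`.
* If `n ≥ 5` then the component of degree `2 n` of `f` is alternating: its coefficients change the
  sign if two neighbouring letters of a word are exchanged, and the words of length `2 n` which occur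
  in `f` have no repeated letters.

The proof: `f` is constant on the block triangular matrices of each type, upper or lower (starting
result `BlockTriangular`).  If a polynomial vanishes on all block upper triangular matrices with
diagonal blocks of the sizes `k`, `e`, and the `k × k` matrices have no identity of degree `s` in its
variables, then for each word `p` of length `s + 1` the polynomial formed by the terms beginning with
`p`, without this beginning, vanishes on all `e × e` matrices.  Iterating this for `k = 1` one finds
that the identities of degree `2 m` of the `m × m` matrices are alternating (over any infinite field),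
and so there are none in less than `2 m` variables.
-/

set_option autoImplicit false

namespace Pool.Agent.Results.MP_5d2531_al.ShortWords

open Matrix Pool.Agent.R844.NC Pool.Agent.Results.MP_5d2531_al.BlockTriangular

/-- Let `n` be an odd prime, `K` an infinite field of any characteristic and `f` an `n`-central
polynomial for `M_n(K)`.
* Every nonempty word with less than `2 k` distinct letters, `1 ≤ k < n`, which occurs in `f` has
  length at least `2 n + ⌊n / k⌋`.
* If `n ≥ 5` then the coefficients of `f` of the words of length `2 n` change the sign if two
  neighbouring letters are exchanged, and the coefficients of the words of length `2 n` with two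
  equal letters are zero. -/
theorem result {K : Type*} [Field K] [Infinite K] {σ : Type*} [DecidableEq σ] (n : ℕ)
    (hn : n.Prime) (hn2 : n ≠ 2) (f : FreeAlgebra K σ) (hcen : IsNuCentral n n f) :
    (∀ k : ℕ, 0 < k → k < n → ∀ l : List σ, l ≠ [] → coef f l ≠ 0 →
      l.toFinset.card < 2 * k → 2 * n + n / k ≤ l.length) ∧
    (5 ≤ n → ∀ (p s : List σ) (a b : σ), p.length + 2 + s.length = 2 * n →
      coef f (p ++ b :: a :: s) = - coef f (p ++ a :: b :: s)) ∧
    (5 ≤ n → ∀ l : List σ, l.length = 2 * n → coef f l ≠ 0 → l.Nodup) := by
  classical
  obtain ⟨h1, h2⟩ := BlockTriangular.result n hn hn2 f hcen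
  have H : ∀ k e, 0 < k → 0 < e → k + e = n →
      VanU (Fin k) (Fin e) (cn f) ∨ VanU (Fin k) (Fin e) (rv (cn f)) := by
    intro k e hk he hke
    rcases h1 k e hk he hke with h3 | h3
    · left
      intro A B D
      exact zero_cn f _ (h3 A D B)
    · right
      apply VanL.rv
      intro A B D
      exact zero_cn f _ (h3 A D B)
  refine ⟨fun k hk hkn l hl hc hT => ?_, fun hn5 p s a b hps => ?_, fun hn5 l hl hc => ?_⟩
  · have h3 := (h2 l hl hc).2.1
    have h4 : 2 * k + 1 + (2 * (n - k) + (n - k) / k) ≤ l.length := by
      rcases H k (n - k) hk (by omega) (by omega) with h5 | h5
      · exact few h5 (by rw [cn_apply f hl]; exact hc) hT (by omega)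
      · have h6 := few h5 (l := l.reverse) (by
          rw [rv_apply, List.reverse_reverse, cn_apply f hl]; exact hc)
          (by rw [List.toFinset_reverse]; exact hT) (by rw [List.length_reverse]; omega)
        rwa [List.length_reverse] at h6
    have h5 : n / k = (n - k) / k + 1 := by
      conv_lhs => rw [← Nat.sub_add_cancel hkn.le]
      exact Nat.add_div_right _ hk
    omega
  · have h3 := (sw_all (by omega) (cn f) H p s hps a b).1
    rw [cn_apply f (by simp), cn_apply f (by simp)] at h3
    exact (neg_eq_of_add_eq_zero_right h3).symm
  · have hl0 : l ≠ [] := by
      rintro rfl
      simp only [List.length_nil] at hl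
      omega
    exact nodup_of_sw (cn f) (2 * n) (sw_all (by omega) (cn f) H) l hl
      (by rw [cn_apply f hl0]; exact hc)

end Pool.Agent.Results.MP_5d2531_al.ShortWords
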